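import Mathlib
import Pool.Agent.Run7.h386.Main

/-!
# Grad's question has a negative answer

The definitions are in `Pool.Agent.Run7.h386.Defs`.

The example.  On the open solid torus `(ρ² - 1)² + z² < 1` (`ρ² = a² + b²`), let
`F = √(1 - (ρ² - 1)² - z²)` and
`u(a, b, z) = ((-z a - F b) / ρ², (-z b + F a) / ρ², 2 (ρ² - 1))`.
This is an axisymmetric divergence-free field (a special Solovev equilibrium) with
`(u · ∇) u = -(a, b, 4 z)`: its total pressure is the quadratic form `(a² + b²) / 2 + 2 z²`.
The linear map `S = diag (2, 1, 1)` commutes with the linear part of that acceleration field in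
the horizontal plane, so that `X = S ∘ u ∘ S⁻¹` is divergence free and still satisfies
`(X · ∇) X = -(x₀, x₁, 4 x₂)`.  Hence `curl X × X = ∇ p` with
`p = -((x₀² + x₁²) / 2 + 2 x₂² + |X|² / 2)`.  All field lines of `X` are closed, and in terms of two
first integrals `ξ = (ξ₁, ξ₂)` of `X` one has `p = -71/32 - 2 |ξ + (3/8, 0)|²`, whose level sets are
nested tori around a closed field line.  The solid torus `M` is `{|ξ + (3/8, 0)| ≤ 1/2}`.
-/

open Run7.h386

/-- There are a solid toroidal domain `M` of `ℝ³` and an MHD equilibrium `(X, p)` on `M` such that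
`p` has toroidally nested level sets but `(X, p)` is not axisymmetric. -/
theorem Pool.Agent.Results.MP_919d81_mp.GradDisproof.result :
    ∃ (M : Set E3) (X : E3 → E3) (p : E3 → ℝ),
      IsSolidToroidalDomain M ∧ IsMHDEquilibrium M X p ∧ IsToroidallyNested M p ∧
        ¬ IsAxisymmetric M X p :=
  ⟨MM, fieldX, pres, isSolidToroidalDomain_MM, isMHDEquilibrium_MM, nested_MM, not_axisymmetric⟩
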